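import Pool.Agent.L7h17.TR.Stm

set_option autoImplicit false

/-!
# Project TR, part MRG: unite the last ovals
-/

open MvPolynomial Pool.Agent.L7h17 Pool.Agent.L7h17.TR

namespace Pool.Agent.L7h82.TR

theorem s_MRG : S_MRG := by
  intro F D hD n hn hn22
  obtain ⟨h1, h2, h3, h4, h5, h6⟩ := hD
  choose K hK hDK using h2
  let φ : Fin 22 → Fin n := fun j => ⟨min j.1 (n - 1), by omega⟩
  have hφ : ∀ i : Fin n, ∃ j : Fin 22, φ j = i := by
    intro i
    have := i.2
    refine ⟨⟨i.1, by omega⟩, ?_⟩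
    apply Fin.ext
    show min i.1 (n - 1) = i.1
    omega
  let C : Fin n → Set (Fin 3 → ℝ) := fun i => {v | ∃ j, φ j = i ∧ (v ∈ D j ∨ -v ∈ D j)}
  refine ⟨C, ?_, ?_, ?_, ?_, ?_⟩
  · intro i
    obtain ⟨j, hj⟩ := hφ i
    obtain ⟨v, hv⟩ := (h1 j).nonempty
    exact ⟨v, j, hj, Or.inl hv⟩
  · intro i i' hii
    rw [Set.disjoint_left]
    rintro v ⟨j, hj, hv⟩ ⟨j', hj', hv'⟩
    have hjj : j ≠ j' := by
      rintro rfl
      exact hii (hj.symm.trans hj')
    rcases hv with hv | hv <;> rcases hv' with hv' | hv'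
    · exact Set.disjoint_left.1 (h4 j j' hjj) hv hv'
    · exact h5 j j' v hv hv'
    · exact h5 j' j v hv' hv
    · exact Set.disjoint_left.1 (h4 j j' hjj) hv hv'
  · ext v
    rw [Set.mem_iUnion, h6]
    constructor
    · rintro ⟨i, j, -, hv⟩
      exact ⟨j, hv⟩
    · rintro ⟨j, hv⟩
      exact ⟨φ j, j, rfl, hv⟩
  · rintro i v ⟨j, hj, hv⟩ c hc
    refine ⟨j, hj, ?_⟩
    rcases lt_or_gt_of_ne hc with hc | hc
    · have hc' : 0 < -c := by linarith
      rcases hv with hv | hv
      · right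
        have := h3 j v hv (-c) hc'
        rwa [neg_smul] at this
      · left
        have := h3 j (-v) hv (-c) hc'
        rwa [smul_neg, neg_smul, neg_neg] at this
    · rcases hv with hv | hv
      · exact Or.inl (h3 j v hv c hc)
      · right
        have := h3 j (-v) hv c hc
        rwa [smul_neg] at this
  · intro i
    refine ⟨⋃ j : {j // φ j = i}, (K j.1 ∪ (fun v => -v) ⁻¹' K j.1), ?_, ?_⟩
    · refine isClosed_iUnion_of_finite fun j => ?_
      exact (hK j.1).union ((hK j.1).preimage continuous_neg)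
    · ext v
      constructor
      · rintro ⟨j, hj, hv⟩
        rcases hv with hv | hv
        · rw [hDK j] at hv
          exact ⟨Set.mem_iUnion.2 ⟨⟨j, hj⟩, Or.inl hv.1⟩, hv.2⟩
        · rw [hDK j] at hv
          refine ⟨Set.mem_iUnion.2 ⟨⟨j, hj⟩, Or.inr hv.1⟩, ?_⟩
          intro h0
          exact hv.2 (by rw [h0, neg_zero])
      · rintro ⟨hv, hv0⟩
        obtain ⟨⟨j, hj⟩, hv⟩ := Set.mem_iUnion.1 hv
        refine ⟨j, hj, ?_⟩
        rcases hv with hv | hv
        · left
          rw [hDK j]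
          exact ⟨hv, hv0⟩
        · right
          rw [hDK j]
          refine ⟨hv, ?_⟩
          intro h0
          exact hv0 (neg_eq_zero.1 h0)

end Pool.Agent.L7h82.TR
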